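import Pool.Agent.Helper20.HP.Data2
import Pool.Agent.Helper20.PC.Prod

/-!
# HOPF-F8: the final theorem for `S² × S³` from the local statements
-/

open Filter Metric Module Set
open scoped Topology ContDiff RealInnerProductSpace Manifold Quaternion

namespace Pool.Agent.Helper9.HP
open Pool.Agent.Helper20.PC Pool.Agent.Helper20.HP

section
variable {F : Type*} [NormedAddCommGroup F] [NormedSpace ℝ F] [FiniteDimensional ℝ F]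
variable {G : F → F →L[ℝ] F →L[ℝ] ℝ} {z : F}

/-- If the numerator is positive then so is the sectional curvature. -/
theorem secCurv_pos_of_num (h : MetAt G z) {u v : F} (huv : LinearIndependent ℝ ![u, v])
    (hK : 0 < num G z u v) : 0 < secCurv G z u v := by
  rw [LinearIndependent.pair_iff] at huv
  have hv : v ≠ 0 := by
    rintro rfl
    have := huv 0 1 (by simp)
    exact one_ne_zero this.2
  have huv' : ∀ t : ℝ, u + t • v ≠ 0 := by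
    intro t ht
    have := huv 1 t (by rw [one_smul]; exact ht)
    exact one_ne_zero this.1
  have hpos := h.pos.self_of_nhds
  have hsym := h.symm.self_of_nhds
  have hvv := hpos v hv
  have h1 := hpos _ (huv' (-(G z u v) / G z v v))
  have hden : 0 < G z u u * G z v v - G z u v ^ 2 := by
    have e : G z (u + (-(G z u v) / G z v v) • v) (u + (-(G z u v) / G z v v) • v)
        = (G z u u * G z v v - G z u v ^ 2) / G z v v := by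
      simp only [map_add, map_smul, _root_.add_apply, _root_.smul_apply, smul_eq_mul]
      rw [hsym v u]
      field_simp
      ring
    rw [e] at h1
    exact (div_pos_iff_of_pos_right hvv).1 h1
  rw [secCurv, G_Riem h]
  exact div_pos hK hden

omit [FiniteDimensional ℝ F] in
theorem metAt_congr {G' : F → F →L[ℝ] F →L[ℝ] ℝ} (h : MetAt G z) (e : G' =ᶠ[𝓝 z] G) :
    MetAt G' z where
  smooth := h.smooth.congr_of_eventuallyEq e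
  symm := by
    filter_upwards [h.symm, e] with z' h1 h2
    intro u v
    rw [h2]
    exact h1 u v
  pos := by
    filter_upwards [h.pos, e] with z' h1 h2
    intro u hu
    rw [h2]
    exact h1 u hu

end

theorem re_mul_inv' (q p : ℍ[ℝ]) (hq : ‖q‖ = 1) (h : ⟪q, p⟫ = 0) : (p * q⁻¹).re = 0 := by
  have h1 : q⁻¹ = star q := by
    have h2 : q * star q = 1 := by
      rw [Quaternion.self_mul_star, Quaternion.normSq_eq_norm_mul_self, hq]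
      simp
    exact inv_eq_of_mul_eq_one_right h2
  rw [h1, ← Quaternion.inner_def, real_inner_comm]
  exact h

/-- the set where both components are nonzero is a neighbourhood -/
theorem eventually_ne {z : E3 × ℍ[ℝ]} (h1 : z.1 ≠ 0) (h2 : z.2 ≠ 0) :
    ∀ᶠ w : E3 × ℍ[ℝ] in 𝓝 z, w.1 ≠ 0 ∧ w.2 ≠ 0 :=
  (continuous_fst.continuousAt.eventually_ne h1).and (continuous_snd.continuousAt.eventually_ne h2)

theorem linInd_right {u v : E3 × ℍ[ℝ]} (huv : LinearIndependent ℝ ![u, v]) {q : ℍ[ℝ]}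
    (hq : q ≠ 0) :
    LinearIndependent ℝ ![((u.1, u.2 * q⁻¹) : E3 × ℍ[ℝ]), ((v.1, v.2 * q⁻¹) : E3 × ℍ[ℝ])] := by
  rw [LinearIndependent.pair_iff] at huv ⊢
  intro s t hst
  refine huv s t ?_
  have h1 := congrArg Prod.fst hst
  have h2 := congrArg Prod.snd hst
  have h3 : (s • u.2 + t • v.2) * q⁻¹ = 0 := by
    rw [add_mul, smul_mul_assoc, smul_mul_assoc]
    exact h2
  have h4 : s • u.2 + t • v.2 = 0 := by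
    rcases mul_eq_zero.1 h3 with h | h
    · exact h
    · exact absurd (inv_eq_zero.1 h) hq
  exact Prod.ext h1 h4

/-- positivity of the curvature of `g3` from the local statement -/
theorem sectional_g3_pos {κ ε T δ : ℝ}
    (hnum : ∀ x : E3, ‖x‖ = 1 → ∀ u v : E3 × ℍ[ℝ], ⟪x, u.1⟫ = 0 → u.2.re = 0 → ⟪x, v.1⟫ = 0 →
      v.2.re = 0 →
        LinearIndependent ℝ ![u, v] → 0 < num (KK (hE κ) (NE κ ε T δ) (AE κ ε)) (x, 1) u v)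
    (hF1 : ∀ {z : E3 × ℍ[ℝ]}, z.1 ≠ 0 → z.2 ≠ 0 → MetAt (KK (hE κ) (NE κ ε T δ) (AE κ ε)) z)
    (hF2 : ∀ (p : sphere (0 : E3) 1 × sphere (0 : ℍ[ℝ]) 1) {z : E3 × ℍ[ℝ]},
      z.1 ≠ 0 → z.2 ≠ 0 → ∀ (u v : E3 × ℍ[ℝ]),
      extM p (g3 κ ε T δ) z u v = KK (hE κ) (NE κ ε T δ) (AE κ ε) z u v)
    (hF3 : ∀ {x : E3}, x ≠ 0 → ∀ {q : ℍ[ℝ]}, q ≠ 0 → ∀ (u v : E3 × ℍ[ℝ]),
      num (KK (hE κ) (NE κ ε T δ) (AE κ ε)) (x, q) u v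
        = num (KK (hE κ) (NE κ ε T δ) (AE κ ε)) (x, 1) (u.1, u.2 * q⁻¹) (v.1, v.2 * q⁻¹))
    (p : sphere (0 : E3) 1 × sphere (0 : ℍ[ℝ]) 1) (u v : E3 × ℍ[ℝ])
    (hu1 : ⟪(p.1 : E3), u.1⟫ = 0) (hu2 : ⟪(p.2 : ℍ[ℝ]), u.2⟫ = 0) (hv1 : ⟪(p.1 : E3), v.1⟫ = 0)
    (hv2 : ⟪(p.2 : ℍ[ℝ]), v.2⟫ = 0) (huv : LinearIndependent ℝ ![u, v]) :
    0 < sectional (g3 κ ε T δ) p u v := by
  have hp1 : ‖(p.1 : E3)‖ = 1 := norm_eq_of_mem_sphere p.1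
  have hp2 : ‖(p.2 : ℍ[ℝ])‖ = 1 := norm_eq_of_mem_sphere p.2
  have hz1 : (p.1 : E3) ≠ 0 := ne_zero_of_mem_unit_sphere p.1
  have hz2 : (p.2 : ℍ[ℝ]) ≠ 0 := ne_zero_of_mem_unit_sphere p.2
  have hcong : extM p (g3 κ ε T δ) =ᶠ[𝓝 ((p.1 : E3), (p.2 : ℍ[ℝ]))]
      KK (hE κ) (NE κ ε T δ) (AE κ ε) := by
    filter_upwards [eventually_ne (z := ((p.1 : E3), (p.2 : ℍ[ℝ]))) hz1 hz2] with w hw
    exact ContinuousLinearMap.ext fun a => ContinuousLinearMap.ext fun b =>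
      hF2 p hw.1 hw.2 a b
  rw [sectional, secCurv_congr hcong]
  refine secCurv_pos_of_num (hF1 (z := ((p.1 : E3), (p.2 : ℍ[ℝ]))) hz1 hz2) huv ?_
  rw [hF3 hz1 hz2]
  exact hnum p.1 hp1 _ _ hu1 (re_mul_inv' _ _ hp2 hu2) hv1 (re_mul_inv' _ _ hp2 hv2)
    (linInd_right huv hz2)

-- F8 : final theorem for S² × S³ (uses main3, F1, F2, F3, F6)
theorem final3
    (hmain : ∃ κ ε T δ : ℝ, 0 < κ ∧ κ ≤ 1/10 ∧ 0 < δ ∧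
      (∀ y : E3, ‖y‖ = 1 → ∀ a, a ≠ 0 → 0 < Mf κ ε T δ y a a) ∧
      ∀ x : E3, ‖x‖ = 1 → ∀ u v : E3 × ℍ[ℝ], ⟪x, u.1⟫ = 0 → u.2.re = 0 → ⟪x, v.1⟫ = 0 → v.2.re = 0 →
        LinearIndependent ℝ ![u, v] → 0 < num (KK (hE κ) (NE κ ε T δ) (AE κ ε)) (x, 1) u v)
    (hF1 : ∀ {κ ε T δ : ℝ}, |κ| ≤ 1/10 →
      (∀ y : E3, ‖y‖ = 1 → ∀ a, a ≠ 0 → 0 < Mf κ ε T δ y a a) →
      ∀ {z : E3 × ℍ[ℝ]}, z.1 ≠ 0 → z.2 ≠ 0 → MetAt (KK (hE κ) (NE κ ε T δ) (AE κ ε)) z)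
    (hF2 : ∀ {κ ε T δ : ℝ} (p : sphere (0 : E3) 1 × sphere (0 : ℍ[ℝ]) 1) {z : E3 × ℍ[ℝ]},
      z.1 ≠ 0 → z.2 ≠ 0 → ∀ (u v : E3 × ℍ[ℝ]),
      extM p (g3 κ ε T δ) z u v = KK (hE κ) (NE κ ε T δ) (AE κ ε) z u v)
    (hF3 : ∀ {κ ε T δ : ℝ}, |κ| ≤ 1/10 →
      (∀ y : E3, ‖y‖ = 1 → ∀ a, a ≠ 0 → 0 < Mf κ ε T δ y a a) →
      ∀ {x : E3}, x ≠ 0 → ∀ {q : ℍ[ℝ]}, q ≠ 0 → ∀ (u v : E3 × ℍ[ℝ]),
      num (KK (hE κ) (NE κ ε T δ) (AE κ ε)) (x, q) u v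
        = num (KK (hE κ) (NE κ ε T δ) (AE κ ε)) (x, 1) (u.1, u.2 * q⁻¹) (v.1, v.2 * q⁻¹))
    (hF6 : ∀ {κ ε T δ : ℝ}, |κ| ≤ 1/10 →
      (∀ y : E3, ‖y‖ = 1 → ∀ a, a ≠ 0 → 0 < Mf κ ε T δ y a a) →
      ContMDiff ((𝓡 2).prod (𝓡 3)) 𝓘(ℝ, (E3 × ℍ[ℝ]) →L[ℝ] (E3 × ℍ[ℝ]) →L[ℝ] ℝ) ∞ (g3 κ ε T δ) ∧
      (∀ p u v, g3 κ ε T δ p u v = g3 κ ε T δ p v u) ∧
      (∀ (p : sphere (0 : E3) 1 × sphere (0 : ℍ[ℝ]) 1) (u : E3 × ℍ[ℝ]), ⟪(p.1 : E3), u.1⟫ = 0 →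
        ⟪(p.2 : ℍ[ℝ]), u.2⟫ = 0 → u ≠ 0 → 0 < g3 κ ε T δ p u u)) :
    ∃ g : sphere (0 : E3) 1 × sphere (0 : ℍ[ℝ]) 1 → (E3 × ℍ[ℝ]) →L[ℝ] (E3 × ℍ[ℝ]) →L[ℝ] ℝ,
      ContMDiff ((𝓡 2).prod (𝓡 3)) 𝓘(ℝ, (E3 × ℍ[ℝ]) →L[ℝ] (E3 × ℍ[ℝ]) →L[ℝ] ℝ) ∞ g ∧
      (∀ p u v, g p u v = g p v u) ∧
      (∀ (p : sphere (0 : E3) 1 × sphere (0 : ℍ[ℝ]) 1) (u : E3 × ℍ[ℝ]), ⟪(p.1 : E3), u.1⟫ = 0 →
        ⟪(p.2 : ℍ[ℝ]), u.2⟫ = 0 → u ≠ 0 → 0 < g p u u) ∧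
      ∀ (p : sphere (0 : E3) 1 × sphere (0 : ℍ[ℝ]) 1) (u v : E3 × ℍ[ℝ]),
        ⟪(p.1 : E3), u.1⟫ = 0 → ⟪(p.2 : ℍ[ℝ]), u.2⟫ = 0 → ⟪(p.1 : E3), v.1⟫ = 0 → ⟪(p.2 : ℍ[ℝ]), v.2⟫ = 0 →
        LinearIndependent ℝ ![u, v] → 0 < sectional g p u v := by
  obtain ⟨κ, ε, T, δ, hκ0, hκ1, hδ, hM, hnum⟩ := hmain
  have hκ : |κ| ≤ 1/10 := by rwa [abs_of_pos hκ0]
  obtain ⟨s1, s2, s3⟩ := hF6 (κ := κ) (ε := ε) (T := T) (δ := δ) hκ hM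
  refine ⟨g3 κ ε T δ, s1, s2, s3, ?_⟩
  intro p u v hu1 hu2 hv1 hv2 huv
  exact sectional_g3_pos hnum (hF1 hκ hM) hF2 (hF3 hκ hM) p u v hu1 hu2 hv1 hv2 huv

end Pool.Agent.Helper9.HP
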