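import Pool.Agent.Helper9.HP.F8
import Pool.Agent.Helper74.HP.F67

/-!
# Consequences of HOPF: invariance of `g3` under right multiplication, Riemannian submersion to `S²`
-/

open Filter Metric Module Set
open scoped Topology ContDiff RealInnerProductSpace Manifold Quaternion

namespace Pool.Agent.Helper9.HP
open Pool.Agent.Helper20.PC Pool.Agent.Helper20.HP

open Pool.Agent.Helper74.HP (g3_apply Mf_symm vecL_eq_zero re_mul_inv sg_pos norm_coe sg_on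
  sg_set_open)

theorem vecL_qimL (a : E3) : vecL (qimL a) = a := by
  rw [vecL_apply]
  ext i
  fin_cases i <;> rfl

theorem re_qimL (a : E3) : (qimL a).re = 0 := rfl

/-- `g3` is invariant under right multiplication by unit quaternions -/
theorem g3_right (κ ε T δ : ℝ) (p : sphere (0 : E3) 1 × sphere (0 : ℍ[ℝ]) 1)
    (a : sphere (0 : ℍ[ℝ]) 1) (u v : E3 × ℍ[ℝ]) :
    g3 κ ε T δ (p.1, p.2 * a) (u.1, u.2 * (a : ℍ[ℝ])) (v.1, v.2 * (a : ℍ[ℝ])) =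
      g3 κ ε T δ p u v := by
  have ha : (a : ℍ[ℝ]) ≠ 0 := ne_zero_of_mem_unit_sphere a
  have h1 : ∀ w : ℍ[ℝ], w * (a : ℍ[ℝ]) * (((p.2 * a : sphere (0 : ℍ[ℝ]) 1) : ℍ[ℝ]))⁻¹ =
      w * (p.2 : ℍ[ℝ])⁻¹ := by
    intro w
    rw [unitSphere.coe_mul, mul_inv_rev, mul_assoc, mul_inv_cancel_left₀ ha]
  rw [g3_apply, g3_apply]
  simp only [h1]

/-- the connection value `W(u) = 2 Im(u₂ q⁻¹) + A_x(u₁)` -/
noncomputable def Wf (κ ε : ℝ) (p : sphere (0 : E3) 1 × sphere (0 : ℍ[ℝ]) 1) (u : E3 × ℍ[ℝ]) :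
    E3 := (2 : ℝ) • vecL (u.2 * (p.2 : ℍ[ℝ])⁻¹) + Av κ ε p.1 u.1

theorem Av_zero (κ ε : ℝ) (x : E3) : Av κ ε x 0 = 0 := by
  rw [← AvL_apply, map_zero]

/-- horizontal vectors have `W = 0` -/
theorem W_eq_zero {κ ε T δ : ℝ} (hM : ∀ y : E3, ‖y‖ = 1 → ∀ a, a ≠ 0 → 0 < Mf κ ε T δ y a a)
    (p : sphere (0 : E3) 1 × sphere (0 : ℍ[ℝ]) 1) {u : E3 × ℍ[ℝ]}
    (hu : ∀ w : E3 × ℍ[ℝ], w.1 = 0 → ⟪(p.2 : ℍ[ℝ]), w.2⟫ = 0 → g3 κ ε T δ p u w = 0) :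
    Wf κ ε p u = 0 := by
  by_contra hne
  have hq : ‖(p.2 : ℍ[ℝ])‖ = 1 := norm_eq_of_mem_sphere p.2
  have hq0 : (p.2 : ℍ[ℝ]) ≠ 0 := ne_zero_of_mem_unit_sphere p.2
  set w : ℍ[ℝ] := (1/2 : ℝ) • qimL (Wf κ ε p u) * (p.2 : ℍ[ℝ]) with hw
  have hw1 : w * (p.2 : ℍ[ℝ])⁻¹ = (1/2 : ℝ) • qimL (Wf κ ε p u) := by
    rw [hw, mul_assoc, mul_inv_cancel₀ hq0, mul_one]
  have hw2 : ⟪(p.2 : ℍ[ℝ]), w⟫ = 0 := by
    rw [← re_mul_inv _ _ hq, hw1, Quaternion.re_smul, re_qimL, smul_zero]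
  have h1 := hu (0, w) rfl hw2
  rw [g3_apply] at h1
  have h2 : (2 : ℝ) • vecL (w * (p.2 : ℍ[ℝ])⁻¹) + Av κ ε p.1 0 = Wf κ ε p u := by
    rw [hw1, Av_zero, map_smul, vecL_qimL, smul_smul, add_zero]
    norm_num
  simp only [inner_zero_right, mul_zero, zero_add] at h1
  rw [h2] at h1
  have h3 := hM _ (norm_coe p.1) _ hne
  exact h3.ne' h1

/-- `(x, q) ↦ x` is a Riemannian submersion from `g3` to `hhat` -/
theorem g3_submersion {κ ε T δ : ℝ}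
    (hM : ∀ y : E3, ‖y‖ = 1 → ∀ a, a ≠ 0 → 0 < Mf κ ε T δ y a a)
    (p : sphere (0 : E3) 1 × sphere (0 : ℍ[ℝ]) 1) :
    (∀ u v : E3 × ℍ[ℝ],
      (∀ w : E3 × ℍ[ℝ], w.1 = 0 → ⟪(p.2 : ℍ[ℝ]), w.2⟫ = 0 → g3 κ ε T δ p u w = 0) →
      (∀ w : E3 × ℍ[ℝ], w.1 = 0 → ⟪(p.2 : ℍ[ℝ]), w.2⟫ = 0 → g3 κ ε T δ p v w = 0) →
      g3 κ ε T δ p u v = hhat κ p.1 u.1 v.1) ∧
    ∀ a : E3, ∃ u : E3 × ℍ[ℝ], u.1 = a ∧ ⟪(p.2 : ℍ[ℝ]), u.2⟫ = 0 ∧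
      ∀ w : E3 × ℍ[ℝ], w.1 = 0 → ⟪(p.2 : ℍ[ℝ]), w.2⟫ = 0 → g3 κ ε T δ p u w = 0 := by
  have hq : ‖(p.2 : ℍ[ℝ])‖ = 1 := norm_eq_of_mem_sphere p.2
  have hq0 : (p.2 : ℍ[ℝ]) ≠ 0 := ne_zero_of_mem_unit_sphere p.2
  constructor
  · intro u v hu hv
    have h1 : (2 : ℝ) • vecL (u.2 * (p.2 : ℍ[ℝ])⁻¹) + Av κ ε p.1 u.1 = 0 := W_eq_zero hM p hu
    rw [g3_apply, h1, map_zero]
    simp [hhat, inL_apply]
  · intro a
    refine ⟨(a, -((1/2 : ℝ) • qimL (Av κ ε p.1 a)) * (p.2 : ℍ[ℝ])), rfl, ?_, ?_⟩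
    · rw [← re_mul_inv _ _ hq, mul_assoc, mul_inv_cancel₀ hq0, mul_one, Quaternion.re_neg,
        Quaternion.re_smul, re_qimL, smul_zero, neg_zero]
    · intro w hw1 hw2
      rw [g3_apply]
      have h1 : (2 : ℝ) • vecL (-((1/2 : ℝ) • qimL (Av κ ε p.1 a)) * (p.2 : ℍ[ℝ]) *
          (p.2 : ℍ[ℝ])⁻¹) + Av κ ε p.1 a = 0 := by
        rw [mul_assoc, mul_inv_cancel₀ hq0, mul_one, map_neg, map_smul, vecL_qimL, smul_neg,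
          smul_smul]
        norm_num
      simp only [h1, hw1]
      simp

theorem hhat_metric {κ : ℝ} (hκ : |κ| ≤ 1/10) :
    ContMDiff (𝓡 2) 𝓘(ℝ, E3 →L[ℝ] E3 →L[ℝ] ℝ) ∞ (fun x : sphere (0 : E3) 1 => hhat κ x) ∧
    (∀ (x : sphere (0 : E3) 1) u v, hhat κ x u v = hhat κ x v u) ∧
    (∀ (x : sphere (0 : E3) 1) u, u ≠ 0 → 0 < hhat κ x u u) := by
  refine ⟨?_, ?_, ?_⟩
  · intro x
    have h3 : sg κ (x : E3) ≠ 0 := (sg_pos hκ (norm_coe x)).ne'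
    have h2 : ContDiffOn ℝ ∞ (fun x : E3 => hhat κ x) {x : E3 | sg κ x ≠ 0} := by
      rw [contDiffOn_clm_apply]
      intro u
      rw [contDiffOn_clm_apply]
      intro v
      have h4 : ∀ y : E3, hhat κ y u v = ((sg κ y) ^ 2)⁻¹ * ⟪u, v⟫ := by
        intro y
        simp [hhat, inL_apply]
      simp only [h4]
      refine ContDiffOn.mul ?_ contDiffOn_const
      exact ((sg_on contDiffOn_id).pow 2).inv fun z hz => pow_ne_zero _ hz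
    have h1 : ContDiffAt ℝ ∞ (fun x : E3 => hhat κ x) (x : E3) :=
      h2.contDiffAt ((sg_set_open κ).mem_nhds h3)
    have h4 : ContMDiffAt (𝓡 2) 𝓘(ℝ, E3) ∞ (fun x : sphere (0 : E3) 1 => (x : E3)) x :=
      contMDiff_coe_sphere.contMDiffAt
    exact h1.contMDiffAt.comp x h4
  · intro x u v
    simp [hhat, inL_apply, real_inner_comm]
  · intro x u hu
    have h3 := sg_pos hκ (norm_coe x)
    have h4 : hhat κ x u u = ((sg κ x) ^ 2)⁻¹ * ⟪u, u⟫ := by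
      simp [hhat, inL_apply]
    rw [h4]
    exact mul_pos (inv_pos.2 (pow_pos h3 2)) (real_inner_self_pos.2 hu)

end Pool.Agent.Helper9.HP
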